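import Pool.Agent.R880.CD.Upper3

set_option autoImplicit false

/-!
# Matrix versus matroid `c*d*`-depth (MP_a7207a_co), Q1: disproof

The definitions are in `Pool/Agent/R880/CD/Basic.lean`:

* `colMatroid A E` – the column matroid of the matrix `A : Matrix (Fin m) ℕ 𝔽` whose columns are
  labelled by the finite set `E ⊆ ℕ` (the entries of `A` in columns outside `E` are irrelevant);
* `IsComponent M X` – `X` is a maximal set of elements of `M` any two of which lie on a common
  circuit;
* `CStar M M'`, `DStar M M'` – `M'` is a `c*`-, `d*`-transformation of `M`;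
* `MatroidDepthLE k M`, `matroidDepth M : ℕ∞` – the `c*d*`-depth of `M` is at most `k`, and the
  `c*d*`-depth of `M`;
* `appendRow`, `pivotColumn`, `MatrixStep` – `d*`-steps and `c*`-steps of matrices;
* `MatrixDepthLE k m A E`, `matrixDepth A E : ℕ∞` – the same for matrices.

The two matrices `A1`, `A2` and the label set `S` are in `Pool/Agent/R880/CD/Ex.lean`.
-/

namespace Pool.Agent.Results.MP_a7207a_co.Counterexample

open Pool.Agent.R880.CD

theorem matrix_mono {𝔽 : Type} [Field 𝔽] : ∀ (k m : ℕ) (A : Matrix (Fin m) ℕ 𝔽) (E : Finset ℕ),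
    MatrixDepthLE k m A E → MatrixDepthLE (k + 1) m A E := by
  intro k
  induction k with
  | zero => intro m A E h; exact absurd h (by simp [MatrixDepthLE])
  | succ k ih =>
    intro m A E h X hX
    rcases h X hX with h1 | ⟨m', A', hs, hne, hd⟩
    · exact Or.inl h1
    · exact Or.inr ⟨m', A', hs, hne, ih _ _ _ hd⟩

theorem matrix_mono_le {𝔽 : Type} [Field 𝔽] {k l m : ℕ} {A : Matrix (Fin m) ℕ 𝔽} {E : Finset ℕ}
    (hkl : k ≤ l) (h : MatrixDepthLE k m A E) : MatrixDepthLE l m A E := by
  induction hkl with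
  | refl => exact h
  | step _ ih => exact matrix_mono _ _ _ _ ih

theorem matrixDepth_A1 : matrixDepth A1 S = 5 := by
  refine le_antisymm (sInf_le ⟨5, rfl, mupper⟩) (le_sInf ?_)
  rintro d ⟨k, rfl, hk⟩
  by_contra hlt
  have h4 : k ≤ 4 := by
    have h5 : (k : ℕ∞) < 5 := not_le.1 hlt
    have : k < 5 := by exact_mod_cast h5
    omega
  exact lower (matrix_mono_le h4 hk)

theorem matroidDepth_A1 : matroidDepth (colMatroid A1 S) ≤ 4 :=
  sInf_le ⟨4, rfl, upper⟩

/-- **Disproof of Q1.**  There is a rational `6 × 19` matrix whose `c*d*`-depth is `5` while the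
`c*d*`-depth of its column matroid is at most `4`. -/
theorem result : ∃ (A : Matrix (Fin 6) ℕ ℚ) (E : Finset ℕ), E.card = 19 ∧
    matroidDepth (colMatroid A E) ≤ 4 ∧ matrixDepth A E = 5 :=
  ⟨A1, S, by decide, matroidDepth_A1, matrixDepth_A1⟩

end Pool.Agent.Results.MP_a7207a_co.Counterexample
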